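import Pool.Agent.H94.EGC.S1

/-!
# EGC, module LXO: the lexicographic order
-/

set_option autoImplicit false

namespace Pool.EGC

open MvPolynomial Pool.EGH

theorem lx_iff_toLex {m : ℕ} (x y : Fin m → ℕ) : lx x y ↔ toLex x < toLex y := Iff.rfl

/-- LXO. -/
theorem t_lxo : LXOStmt := by
  intro m x y z
  refine ⟨?_, ?_, ?_, ?_, ?_⟩
  · rw [lx_iff_toLex]; exact lt_irrefl _
  · rw [lx_iff_toLex, lx_iff_toLex, lx_iff_toLex]; exact lt_trans
  · rw [lx_iff_toLex, lx_iff_toLex]
    rcases lt_trichotomy (toLex x) (toLex y) with h | h | h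
    · exact Or.inl h
    · exact Or.inr (Or.inl (toLex_inj.1 h))
    · exact Or.inr (Or.inr h)
  · unfold lx
    simp
  · intro i j hij
    refine ⟨i, ?_, ?_⟩
    · intro k hk
      have h1 : k ≠ i := ne_of_lt hk
      have h2 : k ≠ j := ne_of_lt (hk.trans hij)
      simp [h1, h2]
    · have h2 : i ≠ j := ne_of_lt hij
      simp [h2]

end Pool.EGC

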