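import Pool.Agent.H94.EGC.S1

/-!
# EGC, module BAS: the case of full length
-/

set_option autoImplicit false

namespace Pool.EGC

open MvPolynomial Pool.EGH

namespace BASaux

theorem hf_top {K : Type} [Field K] {N : ℕ} (i : ℕ) : hf (⊤ : Ideal (PR K N)) i = 0 := by
  unfold hf
  have : ((⊤ : Ideal (PR K N)).restrictScalars K ⊓ fm K N i) = fm K N i := by
    ext x
    simp
  rw [this, Nat.sub_self]

theorem hf_zero {K : Type} [Field K] {N : ℕ} (hMON : MONStmt) (I : Ideal (PR K N))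
    (h : hf I 0 = 0) (i : ℕ) : hf I i = 0 := by
  obtain ⟨-, h2⟩ := hMON K N I ⊤ 0 le_top
  have h3 := h2 (by rw [h, hf_top])
  have h4 : (1 : PR K N) ∈ I := h3 1 Submodule.mem_top (isHomogeneous_one (Fin N) K)
  rw [(Ideal.eq_top_iff_one I).2 h4, hf_top]

theorem up_empty {m : ℕ} (c : Fin m → Bool) (d : ℕ) : up c d ∅ = ∅ := by
  unfold up
  simp

end BASaux

open BASaux

/-- BAS. -/
theorem t_bas (hTR1 : TR1Stmt) (hTR2 : TR2Stmt) (hTR3 : TR3Stmt) (hFC6 : FC6Stmt)
    (hMOC : MOCStmt) (hSGE : SGEStmt) (hSUP : SUPStmt) (hGRO : GROStmt) (hCHF : CHFStmt)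
    (hMON : MONStmt) : BASStmt := by
  intro K _ _ N k r J I hkr hr6 hJ hJI hI
  obtain ⟨J0, hJ0, hJ0J, hmap⟩ := hTR2 K N k r r J hJ
  obtain ⟨π, hπ, hker⟩ := hTR1 K N k r J0 hJ0 hkr
  have hQ : MCI 0 r (J.map π) := hmap π hπ hker
  obtain ⟨hHg', hhf⟩ := hTR3 K N r π I hπ (by rw [hker]; exact hJ0J.trans hJI) hI
  have hCI : CI r (J.map π) := ⟨0, zero_add r, hQ⟩
  have hQI : J.map π ≤ I.map π := Ideal.map_mono hJI
  have hgro := hGRO K r (J.map π) (I.map π) hr6 hCI hHg' hQI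
  have hz0 : hf I 0 = 0 → ∀ i, hf I i = 0 := by
    intro h0 i
    rw [← hhf] at h0 ⊢
    exact hf_zero hMON _ h0 i
  have hle : ∀ d, hf I d ≤ r.choose d := by
    intro d
    rcases Nat.eq_zero_or_pos d with h | h
    · subst h
      rw [← hhf, ← hCHF K r 0 r (J.map π) (zero_add r) hQ 0]
      exact (hMON K r (J.map π) (I.map π) 0 hQI).1
    · rw [← hhf]
      exact (hgro d h).1
  have hgrow : ∀ d, 1 ≤ d → hf I (d + 1) ≤ bd d (hf I d) := by
    intro d hd
    have := (hgro d hd).2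
    rwa [hhf, hhf] at this
  have hA : ∀ d, ∃ A, Sg (cp r r) d A ∧ A.card = r.choose d - hf I d := by
    intro d
    exact (hSGE r (cp r r) d).1 _ (by rw [hMOC]; exact Nat.sub_le _ _)
  choose A hA1 hA2 using hA
  refine ⟨A, hA1, ?_, ?_⟩
  · intro d
    have hup := hSUP r (cp r r) d (A d) (hA1 d)
    apply (hSGE r (cp r r) (d + 1)).2 _ _ hup (hA1 (d + 1))
    rw [hA2]
    rcases Nat.eq_zero_or_pos d with h | h
    · subst h
      rcases Nat.eq_zero_or_pos (hf I 0) with h0 | h0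
      · rw [hz0 h0 (0 + 1), Nat.sub_zero, ← hMOC r (0 + 1)]
        exact Finset.card_le_card hup.1
      · have h1 : (A 0).card = 0 := by
          rw [hA2, Nat.choose_zero_right]
          omega
        rw [Finset.card_eq_zero.1 h1, up_empty]
        exact Nat.zero_le _
    · have h1 := hFC6 r d (hf I d) (A d) hr6 h (hA1 d) (by
        rw [hA2]
        have := hle d
        omega)
      have h2 := hgrow d h
      omega
  · intro d
    rw [hA2, hMOC]
    have := hle d
    omega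

end Pool.EGC

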