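import Pool.Agent.H94.EGC.S1

/-!
# EGC, module FC6: the shadows of segments of squarefree vectors
-/

set_option autoImplicit false

namespace Pool.EGC

open MvPolynomial Pool.EGH

namespace FC6aux

theorem bd_zero (d : ℕ) : bd d 0 = 0 := by
  unfold bd
  split <;> rfl

theorem bd_big (d h : ℕ) (hd : 6 ≤ d) : bd d h = 0 := by
  unfold bd
  split <;> omega

/-- The numerical inequality. -/
theorem num1 : ∀ r' : Fin 6, ∀ d' : Fin 4, ∀ k : Fin 11,
    (k : ℕ) ≤ (r' : ℕ).choose ((d' : ℕ) + 1) →
    bd ((d' : ℕ) + 2) ((r' : ℕ).choose ((d' : ℕ) + 2) + k) ≤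
      (r' : ℕ).choose ((d' : ℕ) + 3) + bd ((d' : ℕ) + 1) k := by
  decide

theorem num (r' d k : ℕ) (hr : r' ≤ 5) (hd : 1 ≤ d) (hk : k ≤ r'.choose d) :
    bd (d + 1) (r'.choose (d + 1) + k) ≤ r'.choose (d + 2) + bd d k := by
  rcases Nat.lt_or_ge d 5 with h5 | h5
  · obtain ⟨d', rfl⟩ : ∃ d', d = d' + 1 := ⟨d - 1, by omega⟩
    have hk11 : k < 11 := by
      have h1 : r'.choose (d' + 1) ≤ (5 : ℕ).choose (d' + 1) := Nat.choose_le_choose _ hr
      have h2 : (5 : ℕ).choose (d' + 1) ≤ 10 := by
        have : d' < 4 := by omega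
        interval_cases d' <;> decide
      omega
    exact num1 ⟨r', by omega⟩ ⟨d', by omega⟩ ⟨k, hk11⟩ hk
  · rw [bd_big (d + 1) _ (by omega)]
    exact Nat.zero_le _

theorem cp_succ (r : ℕ) : (cp (r + 1) (r + 1)) ∘ (0 : Fin (r + 1)).succAbove = cp r r := by
  funext j
  simp [cp]

theorem up_empty {m : ℕ} (c : Fin m → Bool) (d : ℕ) : up c d ∅ = ∅ := by
  unfold up
  simp

theorem up_sub {m : ℕ} (c : Fin m → Bool) (d : ℕ) (A : Finset (Fin m → ℕ)) :
    up c d A ⊆ Mo c (d + 1) := Finset.filter_subset _ _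

end FC6aux

open FC6aux

/-- FC6. -/
theorem t_fc6 (hMOC : MOCStmt) (hSL1 : SL1Stmt) (hSL2 : SL2Stmt) (hSL3 : SL3Stmt) :
    FC6Stmt := by
  intro r
  induction r with
  | zero =>
    intro d h A _ hd hA hc
    have h0 : (0 : ℕ).choose d = 0 := Nat.choose_eq_zero_of_lt (by omega)
    rw [h0] at hc
    have hA0 : A = ∅ := Finset.card_eq_zero.1 (by omega)
    have hh : h = 0 := by omega
    rw [hA0, up_empty, hh, bd_zero]
    exact Nat.zero_le _
  | succ r ih =>
    intro d h A hr hd hA hc
    have hcap : cp (r + 1) (r + 1) 0 = true := by simp [cp]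
    obtain ⟨hAM, hAS⟩ := hA
    obtain ⟨s1, s2, s3, s4, s5⟩ := hSL1 r (cp (r + 1) (r + 1)) d 0 A hAM
    obtain ⟨-, q2, q3⟩ := hSL2 r (cp (r + 1) (r + 1)) 0
    rw [cp_succ] at s2 q3
    have h3 := hSL3 r (cp (r + 1) (r + 1)) d 0 A hAM
    rw [cp_succ] at h3
    obtain ⟨d', rfl⟩ : ∃ d', d = d' + 1 := ⟨d - 1, by omega⟩
    -- the size of a set
    have hsum : ∀ (e : ℕ) (B : Finset (Fin (r + 1) → ℕ)), B ⊆ Mo (cp (r + 1) (r + 1)) (e + 1) →
        B.card = (sl 0 0 B).card + (sl 0 1 B).card := by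
      intro e B hB
      obtain ⟨-, -, -, u4, u5⟩ := hSL1 r (cp (r + 1) (r + 1)) (e + 1) 0 B hB
      rw [u5, Finset.sum_range_succ', Finset.sum_range_succ']
      have : ∑ k ∈ Finset.range e, (sl 0 (k + 1 + 1) B).card = 0 := by
        apply Finset.sum_eq_zero
        intro k _
        rw [u4 hcap (k + 1 + 1) (by omega)]
        rfl
      rw [this]
      ring
    have hA1 := hsum d' A hAM
    have hU1 := hsum (d' + 1) (up (cp (r + 1) (r + 1)) (d' + 1) A) (up_sub _ _ _)
    -- the slices of the shadow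
    have hU0 : sl 0 0 (up (cp (r + 1) (r + 1)) (d' + 1) A) =
        up (cp r r) (d' + 1) (sl 0 0 A) := by
      ext x
      rw [h3 0 (fun _ => Nat.zero_le _)]
      simp
    have hU1' : ∀ x, x ∈ sl 0 1 (up (cp (r + 1) (r + 1)) (d' + 1) A) ↔
        x ∈ up (cp r r) d' (sl 0 1 A) ∨ x ∈ sl 0 0 A := by
      intro x
      rw [h3 1 (fun _ => le_rfl)]
      simp
    have hs0 : sl 0 0 A ⊆ Mo (cp r r) (d' + 1) := s2 0 (by omega)
    have hs1 : sl 0 1 A ⊆ Mo (cp r r) d' := s2 1 (by omega)
    have hsg0 : Sg (cp r r) (d' + 1) (sl 0 0 A) := by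
      refine ⟨hs0, fun x hx y hy hxy => ?_⟩
      rw [s1] at hx ⊢
      exact hAS _ hx _ ((q3 (d' + 1) 0 y).2 ⟨by omega, fun _ => by omega, hy⟩) ((q2 0 x y).2 hxy)
    have hsg1 : Sg (cp r r) d' (sl 0 1 A) := by
      refine ⟨hs1, fun x hx y hy hxy => ?_⟩
      rw [s1] at hx ⊢
      exact hAS _ hx _ ((q3 (d' + 1) 1 y).2 ⟨by omega, fun _ => by omega, hy⟩) ((q2 1 x y).2 hxy)
    have hch : (r + 1).choose (d' + 1) = r.choose d' + r.choose (d' + 1) :=
      Nat.choose_succ_succ r d'
    have hch2 : (r + 1).choose (d' + 1 + 1) = r.choose (d' + 1) + r.choose (d' + 2) :=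
      Nat.choose_succ_succ r (d' + 1)
    rw [hch2, hU1, hU0]
    rcases Finset.eq_empty_or_nonempty (sl 0 0 A) with hE | hE
    · -- all of `A` begins with one
      have hU1'' : sl 0 1 (up (cp (r + 1) (r + 1)) (d' + 1) A) = up (cp r r) d' (sl 0 1 A) := by
        ext x
        rw [hU1', hE]
        simp
      rw [hU1'', hE, up_empty, Finset.card_empty, Nat.zero_add]
      rw [hE, Finset.card_empty, Nat.zero_add] at hA1
      have hle : (sl 0 1 A).card ≤ r.choose d' := by
        rw [← hMOC r d']; exact Finset.card_le_card hs1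
      obtain ⟨k, hk⟩ : ∃ k, (sl 0 1 A).card + k = r.choose d' := ⟨r.choose d' - (sl 0 1 A).card,
        by omega⟩
      have hhk : h = r.choose (d' + 1) + k := by omega
      have hkle : k ≤ r.choose d' := by omega
      rcases Nat.eq_zero_or_pos d' with h0 | hpos
      · subst h0
        rw [Nat.choose_zero_right] at hk hkle
        rw [Nat.zero_add, Nat.choose_one_right, Nat.zero_add] at *
        have hb : bd 1 h = h.choose 2 := rfl
        rw [hb]
        rcases Finset.eq_empty_or_nonempty (sl 0 1 A) with hE1 | hE1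
        · rw [hE1, up_empty, Finset.card_empty]
          rw [hE1, Finset.card_empty] at hk
          have : h = r + 1 := by omega
          have h2 : (r + 1).choose 2 = r + r.choose 2 := by
            rw [Nat.choose_succ_succ' r 1, Nat.choose_one_right]
          rw [this, h2]
          omega
        · have h1 : 1 ≤ (sl 0 1 A).card := Finset.card_pos.2 hE1
          have h2 : h = r := by omega
          have h3 : (up (cp r r) 0 (sl 0 1 A)).card ≤ r := by
            have := Finset.card_le_card (up_sub (cp r r) 0 (sl 0 1 A))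
            rw [hMOC, Nat.zero_add, Nat.choose_one_right] at this
            exact this
          rw [h2]
          omega
      · have h1 := ih d' k (sl 0 1 A) (by omega) hpos hsg1 hk
        have h2 := num r d' k (by omega) hpos hkle
        rw [← hhk] at h2
        omega
    · -- all vectors beginning with one are in `A`
      obtain ⟨x0, hx0⟩ := hE
      have hall : sl 0 1 A = Mo (cp r r) d' := by
        apply Finset.Subset.antisymm hs1
        intro y hy
        rw [s1] at hx0 ⊢
        refine hAS _ hx0 _ ((q3 (d' + 1) 1 y).2 ⟨by omega, fun _ => by omega, hy⟩) ?_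
        refine ⟨0, fun j hj => absurd hj (Fin.not_lt_zero j), ?_⟩
        simp
      have hcA : (sl 0 1 A).card = r.choose d' := by rw [hall, hMOC]
      have h1 := ih (d' + 1) h (sl 0 0 A) (by omega) (by omega) hsg0 (by omega)
      have h2 : (sl 0 1 (up (cp (r + 1) (r + 1)) (d' + 1) A)).card ≤ r.choose (d' + 1) := by
        rw [← hMOC r (d' + 1)]
        apply Finset.card_le_card
        intro x hx
        rcases (hU1' x).1 hx with h | h
        · exact up_sub _ _ _ h
        · exact hs0 h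
      have h3 : r.choose (d' + 1 + 1) = r.choose (d' + 2) := rfl
      rw [h3] at h1
      omega

end Pool.EGC

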