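import Pool.Agent.H94.EGC.S1

/-!
# EGC, module IND: the induction of Caviglia and Maclagan
-/

set_option autoImplicit false

namespace Pool.EGC

open MvPolynomial Pool.EGH

/-- IND. -/
theorem t_ind (hBAS : BASStmt) (hSTP : STPStmt) (hHFS : HFSStmt) (hPNS : PNSStmt)
    (hRLF : RLFStmt) (hPER : PERStmt) (hHGA : HGAStmt) : INDStmt := by
  intro K _ _ N k m r J I hkm hrm hr6
  have hinf : Infinite K := IsAlgClosed.instInfinite
  obtain ⟨t, rfl⟩ : ∃ t, m = r + t := ⟨m - r, by omega⟩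
  clear hrm
  induction t generalizing k J I with
  | zero =>
    intro hJ hJI hI
    exact hBAS K N k r J I hkm hr6 hJ hJI hI
  | succ t ih =>
    intro hJ hJI hI
    have hJg : Hg J := (hHGA K N).2.2.2 k r J hJ
    obtain ⟨l, hl, hreg⟩ := hRLF K N J hJg (hPNS K N k r J hJ (by omega))
    have hJ' := hPER K N k r J l hJ hl hreg
    obtain ⟨h1, -⟩ := hHFS K N I l hI hl
    refine hSTP K N (r + t) r I l (by omega) hI hl ?_
    intro j
    obtain ⟨h2, h3, -⟩ := h1 j
    exact ih (k + 1) (J ⊔ Ideal.span {l}) (cj I l j ⊔ Ideal.span {l}) (by omega) hJ'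
      (sup_le_sup_right (hJI.trans h3) _) h2

end Pool.EGC

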