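import Pool.Agent.H94.EGC.S1

/-!
# EGC, module MAIN: the theorem
-/

set_option autoImplicit false

namespace Pool.EGC

open MvPolynomial Pool.EGH

/-- MAIN. -/
theorem t_main (hIND : INDStmt) (hLEX : LEXStmt) (hBAC : BACStmt) (hRGL : RGLStmt) :
    MainStmt := by
  intro K _ n r hr h6 I f hI hf2 hfI hreg
  have hmem : ∀ g ∈ List.ofFn f, g.IsHomogeneous 2 ∧ g ∈ I := by
    intro g hg
    obtain ⟨i, rfl⟩ := (List.mem_ofFn' f g).1 hg
    exact ⟨hf2 i, hfI i⟩
  obtain ⟨I', rs', hHg', hlen, h', hreg', hhf⟩ :=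
    hBAC K n I (List.ofFn f) hI hmem hreg.toIsWeaklyRegular
  have hlen' : rs'.length = r := by rw [hlen, List.length_ofFn]
  have hM := hRGL (AlgebraicClosure K) n rs' (fun g hg => (h' g hg).1) hreg'
  rw [hlen'] at hM
  have hle : Ideal.ofList rs' ≤ I' := by
    unfold Ideal.ofList
    rw [Ideal.span_le]
    intro g hg
    exact (h' g hg).2
  obtain ⟨A, hA1, hA2, hA3⟩ := hIND (AlgebraicClosure K) n 0 n r (Ideal.ofList rs') I'
    (zero_add n) hr.le h6 hM hle hHg'
  have hRz : Rz I (cp r n) := ⟨A, hA1, hA2, fun d => by rw [← hhf]; exact hA3 d⟩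
  exact hLEX K n r hr I hRz

end Pool.EGC

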