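import Pool.Agent.H94.EGC.Defs

/-!
# EGC: statements of the modules
-/

set_option autoImplicit false

namespace Pool.EGC

open MvPolynomial Pool.EGH

/-! ### The theorem of Clements and Lindström, caps in `{2, ∞}` -/

/-- MOM: membership. -/
def MOMStmt : Prop :=
  ∀ (m : ℕ) (c : Fin m → Bool) (d : ℕ) (x : Fin m → ℕ),
    (x ∈ Mo c d ↔ ∑ i, x i = d ∧ ∀ i, c i = true → x i ≤ 1) ∧
    ∀ (A : Finset (Fin m → ℕ)) (y : Fin m → ℕ),
      y ∈ up c d A ↔ y ∈ Mo c (d + 1) ∧ ∃ x ∈ A, ∃ i, y = x + Pi.single i 1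

/-- LXO: the lexicographic order. -/
def LXOStmt : Prop :=
  ∀ (m : ℕ) (x y z : Fin m → ℕ), ¬ lx x x ∧ (lx x y → lx y z → lx x z) ∧
    (lx x y ∨ x = y ∨ lx y x) ∧ (lx (x + z) (y + z) ↔ lx x y) ∧
    ∀ i j : Fin m, i < j → lx (x + Pi.single j 1) (x + Pi.single i 1)

/-- SGE: existence and comparison of lexicographic segments. -/
def SGEStmt : Prop :=
  ∀ (m : ℕ) (c : Fin m → Bool) (d : ℕ),
    (∀ s ≤ (Mo c d).card, ∃ A, Sg c d A ∧ A.card = s) ∧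
    ∀ A B, Sg c d A → Sg c d B → A.card ≤ B.card → A ⊆ B

/-- SUP: the shadow of a segment is a segment. -/
def SUPStmt : Prop :=
  ∀ (m : ℕ) (c : Fin m → Bool) (d : ℕ) (A : Finset (Fin m → ℕ)), Sg c d A →
    Sg c (d + 1) (up c d A)

/-- SL1: slices. -/
def SL1Stmt : Prop :=
  ∀ (m : ℕ) (c : Fin (m + 1) → Bool) (d : ℕ) (i : Fin (m + 1))
    (A : Finset (Fin (m + 1) → ℕ)), A ⊆ Mo c d →
    (∀ (t : ℕ) (x : Fin m → ℕ), x ∈ sl i t A ↔ (i.insertNth t x : Fin (m + 1) → ℕ) ∈ A) ∧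
    (∀ t ≤ d, sl i t A ⊆ Mo (c ∘ i.succAbove) (d - t)) ∧
    (∀ t, d < t → sl i t A = ∅) ∧ (c i = true → ∀ t, 1 < t → sl i t A = ∅) ∧
    A.card = ∑ t ∈ Finset.range (d + 1), (sl i t A).card

/-- SL2: slices and orders. -/
def SL2Stmt : Prop :=
  ∀ (m : ℕ) (c : Fin (m + 1) → Bool) (i : Fin (m + 1)), (An c → An (c ∘ i.succAbove)) ∧
    (∀ (t : ℕ) (x y : Fin m → ℕ),
      lx (i.insertNth t x : Fin (m + 1) → ℕ) (i.insertNth t y) ↔ lx x y) ∧
    ∀ (d t : ℕ) (x : Fin m → ℕ), (i.insertNth t x : Fin (m + 1) → ℕ) ∈ Mo c d ↔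
      t ≤ d ∧ (c i = true → t ≤ 1) ∧ x ∈ Mo (c ∘ i.succAbove) (d - t)

/-- SL3: the slices of the shadow. -/
def SL3Stmt : Prop :=
  ∀ (m : ℕ) (c : Fin (m + 1) → Bool) (d : ℕ) (i : Fin (m + 1))
    (A : Finset (Fin (m + 1) → ℕ)), A ⊆ Mo c d → ∀ t : ℕ, (c i = true → t ≤ 1) →
    ∀ x : Fin m → ℕ, x ∈ sl i t (up c d A) ↔
      (t ≤ d ∧ x ∈ up (c ∘ i.succAbove) (d - t) (sl i t A)) ∨ (1 ≤ t ∧ x ∈ sl i (t - 1) A)

/-- SL4: sets with given slices. -/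
def SL4Stmt : Prop :=
  ∀ (m : ℕ) (c : Fin (m + 1) → Bool) (d : ℕ) (i : Fin (m + 1))
    (T : ℕ → Finset (Fin m → ℕ)),
    (∀ t ≤ d, T t ⊆ Mo (c ∘ i.succAbove) (d - t)) →
    ∃ A ⊆ Mo c d, ∀ t ≤ d, (c i = true → t ≤ 1) → sl i t A = T t

/-- TOP: the segments have the largest weight. -/
def TOPStmt : Prop :=
  ∀ (m : ℕ) (c : Fin m → Bool) (d : ℕ),
    (∀ x ∈ Mo c d, ∀ y ∈ Mo c d, lx x y → rk c d x < rk c d y) ∧
    ∀ A B : Finset (Fin m → ℕ), A ⊆ Mo c d → B ⊆ Mo c d → A.card = B.card →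
      (∀ x ∈ A, x ∉ B → ∀ y ∈ B, y ∉ A → lx x y) → A ≠ B → wt c d A < wt c d B

/-- CMW: compression increases the weight. -/
def CMWStmt : Prop :=
  ∀ (m : ℕ) (c : Fin (m + 1) → Bool) (d : ℕ) (i : Fin (m + 1))
    (A A' : Finset (Fin (m + 1) → ℕ)), A ⊆ Mo c d → A' ⊆ Mo c d →
    (∀ t, (sl i t A').card = (sl i t A).card) → Cm c d i A' → A' ≠ A →
    wt c d A < wt c d A'

/-- CMP: compression. -/
def CMPStmt : Prop :=
  ∀ (m : ℕ), CLm m → ∀ (c : Fin (m + 1) → Bool), An c → ∀ (d : ℕ)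
    (A : Finset (Fin (m + 1) → ℕ)) (i : Fin (m + 1)), A ⊆ Mo c d →
    ∃ A' ⊆ Mo c d, A'.card = A.card ∧ (up c d A').card ≤ (up c d A).card ∧ Cm c d i A' ∧
      (A' ≠ A → wt c d A < wt c d A')

/-- EX1: a missing vector ends with a positive entry. -/
def EX1Stmt : Prop :=
  ∀ (m : ℕ) (c : Fin (m + 3) → Bool), An c → ∀ (d : ℕ) (A : Finset (Fin (m + 3) → ℕ)),
    A ⊆ Mo c d → (∀ i, Cm c d i A) → ∀ b ∈ Mo c d, b ∉ A → ∀ a ∈ A, lx a b →
    b (Fin.last (m + 2)) ≠ 0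

/-- EX2: the exchange. -/
def EX2Stmt : Prop :=
  ∀ (m : ℕ) (c : Fin (m + 1) → Bool) (d : ℕ) (A : Finset (Fin (m + 1) → ℕ)), A ⊆ Mo c d →
    ∀ b ∈ Mo c d, b ∉ A → (∀ y ∈ Mo c d, lx b y → y ∈ A) →
    ∀ a ∈ A, (∀ y ∈ A, y ≠ a → lx a y) → lx a b → b (Fin.last m) ≠ 0 →
    (up c d (insert b (A.erase a))).card ≤ (up c d A).card

/-- CL1: at most one place. -/
def CL1Stmt : Prop := CLm 0 ∧ CLm 1

/-- CL2: two places. -/
def CL2Stmt : Prop := CLm 2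

/-- CLS: the induction step. -/
def CLSStmt : Prop := ∀ m : ℕ, CLm (m + 2) → CLm (m + 3)

/-- CLT: the theorem of Clements and Lindström. -/
def CLTStmt : Prop := ∀ m : ℕ, CLm m

/-! ### The reduction of Caviglia and Maclagan -/

/-- RZC: from a family of sets to a lexicographic family. -/
def RZCStmt : Prop :=
  ∀ (K : Type) [Field K] (N m : ℕ) (I : Ideal (PR K N)) (c : Fin m → Bool), An c →
    (∃ A : ℕ → Finset (Fin m → ℕ), (∀ d, A d ⊆ Mo c d) ∧ (∀ d, up c d (A d) ⊆ A (d + 1)) ∧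
      ∀ d, hf I d + (A d).card = (Mo c d).card) → Rz I c

/-- SNC: one more place without cap. -/
def SNCStmt : Prop :=
  ∀ (m : ℕ) (c : Fin m → Bool), (An c → An (Fin.snoc c false : Fin (m + 1) → Bool)) ∧
    (∀ d, (Mo (Fin.snoc c false : Fin (m + 1) → Bool) d).card =
      ∑ j ∈ Finset.range (d + 1), (Mo c (d - j)).card) ∧
    (∀ L : ℕ → ℕ → Finset (Fin m → ℕ), (∀ j d, L j d ⊆ Mo c d) →
      (∀ j d, up c d (L j d) ⊆ L j (d + 1)) → (∀ j d, L j d ⊆ L (j + 1) d) →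
      ∃ A : ℕ → Finset (Fin (m + 1) → ℕ),
        (∀ d, A d ⊆ Mo (Fin.snoc c false : Fin (m + 1) → Bool) d) ∧
        (∀ d, up (Fin.snoc c false : Fin (m + 1) → Bool) d (A d) ⊆ A (d + 1)) ∧
        ∀ d, (A d).card = ∑ j ∈ Finset.range (d + 1), (L j (d - j)).card) ∧
    ∀ r : ℕ, r ≤ m → (Fin.snoc (cp r m) false : Fin (m + 1) → Bool) = cp r (m + 1)

/-- HFS: the Hilbert function as a sum. -/
def HFSStmt : Prop :=
  ∀ (K : Type) [Field K] (N : ℕ) (I : Ideal (PR K N)) (l : PR K N), Hg I → l ∈ fm K N 1 →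
    (∀ j, Hg (cj I l j ⊔ Ideal.span {l}) ∧ I ≤ cj I l j ∧
      cj I l j ⊔ Ideal.span {l} ≤ cj I l (j + 1) ⊔ Ideal.span {l}) ∧
    ∀ d, hf I d = ∑ j ∈ Finset.range (d + 1), hf (cj I l j ⊔ Ideal.span {l}) (d - j)

/-- STP: the induction step. -/
def STPStmt : Prop :=
  ∀ (K : Type) [Field K] (N m r : ℕ) (I : Ideal (PR K N)) (l : PR K N), r ≤ m → Hg I →
    l ∈ fm K N 1 → (∀ j, Rz (cj I l j ⊔ Ideal.span {l}) (cp r m)) → Rz I (cp r (m + 1))

/-- TR1: elimination of linear forms. -/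
def TR1Stmt : Prop :=
  ∀ (K : Type) [Field K] (N k n : ℕ) (J : Ideal (PR K N)), MCI k 0 J → k + n = N →
    ∃ π : PR K N →ₐ[K] PR K n, Gs π ∧ RingHom.ker π = J

/-- TR2: the image of a mixed complete intersection. -/
def TR2Stmt : Prop :=
  ∀ (K : Type) [Field K] (N k r n : ℕ) (J : Ideal (PR K N)), MCI k r J →
    ∃ J₀ : Ideal (PR K N), MCI k 0 J₀ ∧ J₀ ≤ J ∧
      ∀ π : PR K N →ₐ[K] PR K n, Gs π → RingHom.ker π = J₀ → MCI 0 r (J.map π)

/-- TR3: the image of an ideal. -/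
def TR3Stmt : Prop :=
  ∀ (K : Type) [Field K] (N n : ℕ) (π : PR K N →ₐ[K] PR K n) (I : Ideal (PR K N)), Gs π →
    RingHom.ker π ≤ I → Hg I → Hg (I.map π) ∧ ∀ i, hf (I.map π) i = hf I i

/-- FC6: the shadows of segments of squarefree vectors, a finite check. -/
def FC6Stmt : Prop :=
  ∀ (r d h : ℕ) (A : Finset (Fin r → ℕ)), r ≤ 6 → 1 ≤ d → Sg (cp r r) d A →
    A.card + h = r.choose d → (up (cp r r) d A).card + bd d h ≤ r.choose (d + 1)

/-- MOC: the number of squarefree vectors. -/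
def MOCStmt : Prop := ∀ r d : ℕ, (Mo (cp r r) d).card = r.choose d

/-- BAS: the case of full length. -/
def BASStmt : Prop :=
  ∀ (K : Type) [Field K] [IsAlgClosed K] (N k r : ℕ) (J I : Ideal (PR K N)), k + r = N →
    r ≤ 6 → MCI k r J → J ≤ I → Hg I → Rz I (cp r r)

/-- IND: all lengths. -/
def INDStmt : Prop :=
  ∀ (K : Type) [Field K] [IsAlgClosed K] (N k m r : ℕ) (J I : Ideal (PR K N)), k + m = N →
    r ≤ m → r ≤ 6 → MCI k r J → J ≤ I → Hg I → Rz I (cp r m)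

/-! ### Monomial ideals -/

/-- MNI: the dimension of the forms in a monomial ideal. -/
def MNIStmt : Prop :=
  ∀ (K : Type) [Field K] (n d : ℕ) (S : Set (Fin n →₀ ℕ)),
    (∀ s ∈ S, ∀ t, s ≤ t → t ∈ S) →
    (∀ p : PR K n, p ∈ Ideal.span ((fun s => monomial s (1 : K)) '' S) ↔
      ∀ s ∈ p.support, s ∈ S) ∧
    Module.finrank K ↥(homogeneousSubmodule (Fin n) K d ⊓ Submodule.restrictScalars K
      (Ideal.span ((fun s => monomial s (1 : K)) '' S))) =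
      Nat.card {s : Fin n →₀ ℕ // s ∈ S ∧ s.degree = d}

/-- LXM: the two lexicographic orders. -/
def LXMStmt : Prop :=
  ∀ (n : ℕ) (s t : Fin n →₀ ℕ),
    ((MonomialOrder.lex : MonomialOrder (Fin n)).toSyn s ≤
      (MonomialOrder.lex : MonomialOrder (Fin n)).toSyn t) ↔
      (s = t ∨ lx (fun i => s i) (fun i => t i))

/-- The conclusion of the theorem. -/
def Ccl (K : Type) [Field K] (n r : ℕ) (hr : r < n) (I : Ideal (MvPolynomial (Fin n) K)) :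
    Prop :=
  ∃ J : Ideal (MvPolynomial (Fin n) K),
    (∀ p ∈ J, ∀ s ∈ p.support, MvPolynomial.monomial s (1 : K) ∈ J) ∧
    (∀ s t : Fin n →₀ ℕ, s.degree = t.degree →
        MvPolynomial.monomial s (1 : K) ∈ J →
        (MonomialOrder.lex : MonomialOrder (Fin n)).toSyn s ≤
          (MonomialOrder.lex : MonomialOrder (Fin n)).toSyn t →
        MvPolynomial.monomial t (1 : K) ∈ J) ∧
    ∀ d : ℕ,
      Module.finrank K
        ↥(MvPolynomial.homogeneousSubmodule (Fin n) K d ⊓ Submodule.restrictScalars K I) =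
      Module.finrank K
        ↥(MvPolynomial.homogeneousSubmodule (Fin n) K d ⊓
            Submodule.restrictScalars K
              (Ideal.span (Set.range fun i : Fin r => MvPolynomial.X (Fin.castLE hr.le i) ^ 2)
                ⊔ J))

/-- LEX: the lexicographic ideal. -/
def LEXStmt : Prop :=
  ∀ (K : Type) [Field K] (n r : ℕ) (hr : r < n) (I : Ideal (PR K n)), Rz I (cp r n) →
    Ccl K n r hr I

/-- The theorem. -/
def MainStmt : Prop :=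
  ∀ (K : Type) [Field K] (n r : ℕ) (hr : r < n), r ≤ 6 →
    ∀ (I : Ideal (MvPolynomial (Fin n) K)) (f : Fin r → MvPolynomial (Fin n) K),
    (∀ p ∈ I, ∀ d : ℕ, MvPolynomial.homogeneousComponent d p ∈ I) →
    (∀ i, (f i).IsHomogeneous 2) → (∀ i, f i ∈ I) →
    RingTheory.Sequence.IsRegular (MvPolynomial (Fin n) K) (List.ofFn f) →
    Ccl K n r hr I

end Pool.EGC
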