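import Pool.Agent.H45.EGH.All
import Pool.Agent.H94.EGC.S1
import Pool.Agent.H34.EGC.MOM
import Pool.Agent.H94.EGC.LXO
import Pool.Agent.H40.EGC.SGE
import Pool.Agent.H52.EGC.SL
import Pool.Agent.H34.EGC.TOP
import Pool.Agent.H97.EGC.CMP
import Pool.Agent.H97.EGC.CLS
import Pool.Agent.H97.EGC.CMW
import Pool.Agent.H24.EGC.EX
import Pool.Agent.H20.EGC.CLT
import Pool.Agent.H62.EGC.CL2
import Pool.Agent.H3.EGC.RZC
import Pool.Agent.H86.EGC.SNC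
import Pool.Agent.H3.EGC.HFS
import Pool.Agent.H34.EGC.STP
import Pool.Agent.H85.EGC.TR1
import Pool.Agent.H34.EGC.TR2
import Pool.Agent.H85.EGC.TR3
import Pool.Agent.H20.EGC.MOC
import Pool.Agent.H94.EGC.FC6
import Pool.Agent.H94.EGC.BAS
import Pool.Agent.H94.EGC.IND
import Pool.Agent.H86.EGC.MNI
import Pool.Agent.H6.EGC.LXM
import Pool.Agent.H74.EGC.LEX
import Pool.Agent.H94.EGC.MAIN

/-!
EGC: the assembled theorem.
-/

set_option autoImplicit false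

namespace Pool.EGC

open Pool.EGH

/-- The rows of the EGH board which are used here. -/
theorem egh_rows : GROStmt ∧ CHFStmt ∧ MONStmt ∧ HGAStmt ∧ COLStmt ∧ LSHStmt ∧ FINStmt ∧
    PNSStmt ∧ RLFStmt ∧ PERStmt ∧ BACStmt ∧ RGLStmt := by
  have x_bac : BACStmt := t_BAC
  have x_rgl : RGLStmt := t_RGL
  have x_gpm : GPMStmt := t_gpm
  have x_lsh : LSHStmt := t_lsh
  have x_lin : LINStmt := t_lin
  have x_hga : HGAStmt := t_HGA
  have x_prm : PRMStmt := t_PRM x_hga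
  have x_per : PERStmt := t_PER x_prm x_hga
  have x_pns : PNSStmt := t_pns x_lsh x_lin x_per x_hga
  have x_rlf : RLFStmt := t_rlf
  have x_gor : GORStmt := t_GOR x_pns x_rlf x_per
  have x_pai : PAIStmt := t_PAI x_gor
  have x_fin : FINStmt := t_FIN
  have x_col : COLStmt := t_col x_fin
  have x_hsb : HSBStmt := t_hsb
  have x_hsr : HSRStmt := t_HSR x_col x_hsb
  have x_chf : CHFStmt := t_CHF x_hsr
  have x_gpd : GPDStmt := t_GPD x_chf x_hga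
  have x_ann : ANNStmt := t_ANN x_pai x_gpd x_gpm
  have x_shp : SHPStmt := t_SHP x_fin x_lsh
  have x_rqf : RQFStmt := t_rqf
  have x_mon : MONStmt := t_MON
  have x_exc : EXCStmt := t_exc x_fin x_shp x_lin x_rqf x_pns x_prm x_per x_hsr x_col x_mon x_chf x_hga
  have x_kil : KILStmt := t_kil x_exc x_per x_hga
  have x_anv : ANVStmt := t_anv x_kil x_gpd x_hga
  have x_gr1 : GR1Stmt := t_GR1 x_ann x_anv
  have x_img : IMGStmt := t_img x_gpd
  have x_he1 : HE1Stmt := t_he1 x_gpm x_gr1 x_img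
  have x_grd : GRDStmt := t_GRD x_ann x_anv x_gpm
  have x_hed : HEDStmt := t_hed x_gpm x_grd x_img
  have x_grt : GRTStmt := t_GRT x_pai x_gpd x_gpm
  have x_het : HETStmt := t_het x_gpm x_grt x_img
  have x_quo : QUOStmt := t_quo x_exc x_per
  have x_clb : CLBStmt := t_CLB x_col x_mon x_quo x_hga
  have x_re5 : RE5Stmt := t_RE5 x_clb x_he1 x_hed x_img
  have x_hpa : HPAStmt := t_hpa
  have x_hop : HOPStmt := t_hop x_hpa
  have x_rqe : RQEStmt := t_rqe x_hop x_gpm x_gpd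
  have x_e52 : E52Stmt := t_e52 x_re5 x_rqe x_anv x_img x_gpd
  have x_upi : UPIStmt := t_upi x_gpm x_hga x_img
  have x_re6 : RE6Stmt := t_re6 x_clb x_he1 x_e52
  have x_e6a : E6AStmt := t_E6A x_re6 x_rqe
  have x_p6a : P6AStmt := t_P6A x_upi x_e6a
  have x_kiu : KIUStmt := t_kiu x_kil
  have x_v33 : V33Stmt := t_v33 x_p6a x_ann
  have x_rnk : RNKStmt := t_RNK x_gpm
  have x_kc6 : KC6Stmt := t_kc6 x_kiu x_gr1 x_v33 x_rnk x_gpm
  have x_t3p : T3PStmt := t_t3p x_hop x_pai x_ann x_gpm x_gpd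
  have x_kf3 : KF3Stmt := t_kf3 x_t3p x_rnk x_grd x_gpm x_gpd
  have x_rk4 : RK4Stmt := t_rk4 x_t3p x_kf3 x_rnk x_grd x_gpm
  have x_str : STRStmt := t_str x_rk4 x_ann x_anv x_rnk x_gpm x_gpd
  have x_ani : ANIStmt := t_ani x_fin x_hga x_ann x_gpd
  have x_r94 : R94Stmt := t_r94 x_clb x_hed x_e6a
  have x_nr4 : NR4Stmt := t_nr4 x_gpm x_ani x_r94 x_rk4
  have x_r11 : R11Stmt := t_r11 x_gpm x_ani x_rqe x_nr4
  have x_cnt : CNTStmt := t_cnt x_gpm x_ann x_rnk x_str x_rk4 x_r11 x_gpd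
  have x_kro : KROStmt := t_kro
  have x_pr4 : PR4Stmt := t_pr4 x_cnt x_kro x_str x_hop
  have x_qe3 : QE3Stmt := t_qe3 x_quo x_gpm x_upi x_mon x_chf x_hga
  have x_dan : DANStmt := t_DAN x_ann x_gpm
  have x_anm : ANMStmt := t_ANM x_pai x_gpm
  have x_ze3 : ZE3Stmt := t_ze3 x_qe3 x_ann x_dan x_anm x_gor x_gpm x_gpd x_chf x_img x_hga
  have x_lsy : LSYStmt := t_lsy x_hga
  have x_e3l : E3LStmt := t_e3l x_qe3 x_lsy x_lin
  have x_jj4 : JJ4Stmt := t_jj4 x_gpm x_gpd x_t3p x_str x_rk4 x_pr4 x_ze3 x_e3l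
  have x_p66 : P66Stmt := t_P66 x_p6a x_kc6 x_kf3 x_jj4
  have x_g62 : G62Stmt := t_g62 x_p66 x_img x_gpm
  have x_g63 : G63Stmt := t_g63 x_p66 x_img x_ann x_gpm
  have x_gro : GROStmt := t_gro x_he1 x_hed x_het x_e52 x_g62 x_g63 x_img
  exact ⟨x_gro, x_chf, x_mon, x_hga, x_col, x_lsh, x_fin, x_pns, x_rlf, x_per, x_bac, x_rgl⟩

theorem egc_all : MainStmt := by
  obtain ⟨x_gro, x_chf, x_mon, x_hga, x_col, x_lsh, x_fin, x_pns, x_rlf, x_per, x_bac, x_rgl⟩ :=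
    egh_rows
  have y_mom : MOMStmt := t_mom
  have y_lxo : LXOStmt := t_lxo
  have y_sge : SGEStmt := t_SGE y_lxo
  have y_sup : SUPStmt := t_SUP y_lxo y_mom
  have y_sl1 : SL1Stmt := t_sl1 y_mom
  have y_sl2 : SL2Stmt := t_sl2 y_mom
  have y_sl3 : SL3Stmt := t_sl3 y_mom y_sl1 y_sl2
  have y_sl4 : SL4Stmt := t_sl4 y_mom y_sl1 y_sl2
  have y_top : TOPStmt := t_top y_lxo
  have y_cmw : CMWStmt := t_cmw y_mom y_lxo y_top
  have y_cmp : CMPStmt := t_cmp y_sge y_sup y_sl1 y_sl2 y_sl3 y_sl4 y_cmw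
  have y_ex1 : EX1Stmt := ex1
  have y_ex2 : EX2Stmt := ex2
  have y_cl1 : CL1Stmt := t_cl1 y_mom
  have y_cl2 : CL2Stmt := t_CL2 y_mom
  have y_cls : CLSStmt := t_cls y_lxo y_top y_cmp y_ex1 y_ex2
  have y_clt : CLTStmt := t_clt y_cl1 y_cl2 y_cls
  have y_rzc : RZCStmt := t_rzc y_clt y_sge y_sup
  have y_snc : SNCStmt := t_snc
  have y_hfs : HFSStmt := t_hfs x_col x_hga
  have y_stp : STPStmt := t_stp y_rzc y_snc y_hfs x_mon y_sge
  have y_tr1 : TR1Stmt := t_tr1 x_lsh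
  have y_tr2 : TR2Stmt := t_tr2
  have y_tr3 : TR3Stmt := t_tr3
  have y_moc : MOCStmt := t_moc y_mom
  have y_fc6 : FC6Stmt := t_fc6 y_moc y_sl1 y_sl2 y_sl3
  have y_bas : BASStmt := t_bas y_tr1 y_tr2 y_tr3 y_fc6 y_moc y_sge y_sup x_gro x_chf x_mon
  have y_ind : INDStmt := t_ind y_bas y_stp y_hfs x_pns x_rlf x_per x_hga
  have y_mni : MNIStmt := t_mni
  have y_lxm : LXMStmt := t_lxm
  have y_lex : LEXStmt := t_lex y_mni y_lxm y_lxo y_mom x_fin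
  exact t_main y_ind y_lex x_bac x_rgl

end Pool.EGC
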