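import Pool.Agent.H45.EGH.S3

/-!
# EGC: ideals containing a regular sequence of at most six quadrics in any number of variables
(definitions)
-/

set_option autoImplicit false

namespace Pool.EGC

open MvPolynomial Pool.EGH

/-- The vector `x` respects the caps: `x i ≤ 1` at the places with `c i = true`. -/
def Cp {m : ℕ} (c : Fin m → Bool) (x : Fin m → ℕ) : Prop := ∀ i, c i = true → x i ≤ 1

open Classical in
/-- The capped vectors of degree `d`. -/
noncomputable def Mo {m : ℕ} (c : Fin m → Bool) (d : ℕ) : Finset (Fin m → ℕ) :=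
  (Finset.piAntidiag Finset.univ d).filter (Cp c)

/-- `x` is smaller than `y` in the lexicographic order. -/
def lx {m : ℕ} (x y : Fin m → ℕ) : Prop := ∃ i, (∀ j < i, x j = y j) ∧ x i < y i

open Classical in
/-- The upper shadow. -/
noncomputable def up {m : ℕ} (c : Fin m → Bool) (d : ℕ) (A : Finset (Fin m → ℕ)) :
    Finset (Fin m → ℕ) :=
  (Mo c (d + 1)).filter (fun y => ∃ x ∈ A, ∃ i, y = x + Pi.single i 1)

/-- `A` consists of the largest vectors of degree `d`. -/
def Sg {m : ℕ} (c : Fin m → Bool) (d : ℕ) (A : Finset (Fin m → ℕ)) : Prop :=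
  A ⊆ Mo c d ∧ ∀ x ∈ A, ∀ y ∈ Mo c d, lx x y → y ∈ A

/-- The capped places come first. -/
def An {m : ℕ} (c : Fin m → Bool) : Prop := ∀ i j, i ≤ j → c j = true → c i = true

/-- The caps at the first `r` places. -/
def cp (r m : ℕ) : Fin m → Bool := fun i => decide ((i : ℕ) < r)

open Classical in
/-- The slice of `A` at place `i` and height `t`. -/
noncomputable def sl {m : ℕ} (i : Fin (m + 1)) (t : ℕ) (A : Finset (Fin (m + 1) → ℕ)) :
    Finset (Fin m → ℕ) :=
  (A.filter (fun x => x i = t)).image (fun x j => x (i.succAbove j))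

open Classical in
/-- The rank of `x`. -/
noncomputable def rk {m : ℕ} (c : Fin m → Bool) (d : ℕ) (x : Fin m → ℕ) : ℕ :=
  ((Mo c d).filter (fun y => lx y x)).card

/-- The weight of `A`. -/
noncomputable def wt {m : ℕ} (c : Fin m → Bool) (d : ℕ) (A : Finset (Fin m → ℕ)) : ℕ :=
  ∑ x ∈ A, rk c d x

/-- `A` is compressed at the place `i`. -/
def Cm {m : ℕ} (c : Fin m → Bool) (d : ℕ) (i : Fin m) (A : Finset (Fin m → ℕ)) : Prop :=
  ∀ x ∈ A, ∀ y ∈ Mo c d, x i = y i → lx x y → y ∈ A

/-- The theorem of Clements and Lindström for `m` places. -/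
def CLm (m : ℕ) : Prop :=
  ∀ (c : Fin m → Bool), An c → ∀ (d : ℕ) (A B : Finset (Fin m → ℕ)), A ⊆ Mo c d →
    Sg c d B → B.card = A.card → (up c d B).card ≤ (up c d A).card

variable {K : Type} [Field K] {N : ℕ}

/-- The Hilbert function of `I` is the one of a lexicographic family. -/
def Rz {m : ℕ} (I : Ideal (PR K N)) (c : Fin m → Bool) : Prop :=
  ∃ A : ℕ → Finset (Fin m → ℕ), (∀ d, Sg c d (A d)) ∧ (∀ d, up c d (A d) ⊆ A (d + 1)) ∧
    ∀ d, hf I d + (A d).card = (Mo c d).card

/-- The ideals `I : l ^ j`. -/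
def cj (I : Ideal (PR K N)) (l : PR K N) : ℕ → Ideal (PR K N)
  | 0 => I
  | j + 1 => clI (cj I l j) l

/-- A surjection of polynomial rings which respects the degrees. -/
def Gs {n : ℕ} (π : PR K N →ₐ[K] PR K n) : Prop :=
  Function.Surjective π ∧ ∀ i, ∀ f ∈ fm K N i, π f ∈ fm K n i

end Pool.EGC
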